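import Pool.Agent.H24.GS.Final
import Pool.Agent.H31.GS.ALT
import Pool.Agent.H61.GS.DEG
import Pool.Agent.H61.GS.REF
import Pool.Agent.H8.GS.MAX
import Pool.Agent.H8.GS.STR
import Pool.Agent.H32.GS.Dba
import Pool.Agent.H32.GS.Vir
import Pool.Agent.H50.GS.DEC

/-!
# Critical points of the gauged O(3) sigma model

A finite energy critical point of the gauged `O(3)` sigma model energy is self-dual or
anti-self-dual if and only if `F₁₂ = 0` at all points where `φ = n`; in particular this holds if
`φ` does not take the value `n`.  These critical points have degree `0` or of absolute value at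
least `2`, so a critical point of degree `1` or `-1` takes the value `n` at a point with
`F₁₂ ≠ 0`.
-/

set_option autoImplicit false

noncomputable section

namespace Pool.Agent.Results.MP_5f0afd_mp.SelfDualityCriterion

open Complex Set Filter Topology MeasureTheory Metric
open Pool.Agent.H172R3.SM Pool.Agent.H172R3.SM.Config Pool.Agent.H24.GS
open scoped ContDiff Matrix

theorem result (c : Config) (h : Critical c) (he : Finite c) :
    ((Dual c 1 ∨ Dual c (-1)) ↔ ∀ z, c.phi z = nn → curl c z = 0) ∧
    ((∀ z, c.phi z = nn → curl c z = 0) → ∃ N : ℤ, Degree c N ∧ (N = 0 ∨ 2 ≤ |N|)) ∧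
    (∀ N : ℤ, Degree c N → |N| = 1 → ∃ z, c.phi z = nn ∧ curl c z ≠ 0) := by
  have key := t_FIN H32.GS.t_VIR H50.GS.t_DEC H8.GS.t_MAX t_BOC H8.GS.t_STR
    (H31.GS.t_ALT H61.GS.t_REF H32.GS.t_DBA) H61.GS.t_REF H61.GS.t_DEG c h.isCritical
    he.finiteEnergy
  rw [dual_iff, dual_iff]
  refine ⟨key.1, key.2, fun N hN hN1 => ?_⟩
  by_contra hcon
  push Not at hcon
  obtain ⟨M, hM, h0⟩ := key.2 hcon
  rw [hasDegree_unique hM hN] at h0
  rcases h0 with h0 | h0
  · rw [h0] at hN1
    simp at hN1
  · omega

end Pool.Agent.Results.MP_5f0afd_mp.SelfDualityCriterion
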